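import Pool.Agent.Helper70.CC.SL
import Pool.Agent.Helper67.CC.JC
import Pool.Agent.Helper71.AA.Div
import Pool.Agent.Helper50.CC.Value
import Pool.Agent.Helper50.CC.Exist
import Pool.Agent.Helper50.CC.Type
import Pool.Agent.Helper48.CC.Final
import Pool.Agent.Helper15.CC.KR
import Pool.Agent.Helper15.CC.IN

/-!
# Products of CM numbers up to relations
-/

set_option autoImplicit false

namespace Pool.Agent.Helper70.CC

open Module Pool.Agent.Helper71.AA Pool.Agent.Helper73.KT Pool.Agent.Helper50.CC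
  Pool.Agent.Helper15.CC

variable {F : Type} [Field F] [Fintype F]

theorem av_eq (m p f t a b : ℕ) : CC48.av m p f t a b = av m p f t a b := by
  unfold CC48.av av
  apply Finset.sum_congr rfl
  intro k _
  unfold CC48.bit
  by_cases h : p ^ k * t * a % m + p ^ k * t * b % m < m
  · rw [if_pos h, decide_eq_true h]
    rfl
  · rw [if_neg h, decide_eq_false h]
    rfl

theorem card_lt_one {A : ValuationSubring ℂ} (hA : A.valuation ((ringChar F : ℕ) : ℂ) < 1) :
    A.valuation (Fintype.card F : ℂ) < 1 := by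
  obtain ⟨n, -, hn⟩ := FiniteField.card F (ringChar F)
  rw [hn, Nat.cast_pow, map_pow]
  exact pow_lt_one₀ zero_le hA n.ne_zero

theorem card_ne_zero : (Fintype.card F : ℂ) ≠ 0 := by
  have : Fintype.card F ≠ 0 := Fintype.card_ne_zero
  exact_mod_cast this

theorem card_pow_inj {A : ValuationSubring ℂ}
    (hA : A.valuation ((ringChar F : ℕ) : ℂ) < 1) {k l : ℕ}
    (h : A.valuation ((Fintype.card F : ℂ) ^ k) = A.valuation ((Fintype.card F : ℂ) ^ l)) :
    k = l := by
  rw [map_pow, map_pow] at h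
  have h1 := card_lt_one (F := F) hA
  have h0 : 0 < A.valuation (Fintype.card F : ℂ) := by
    rw [zero_lt_iff, Valuation.ne_zero_iff]
    exact card_ne_zero
  exact (pow_right_strictAnti₀ h0 h1).injective h

theorem card_mem (m : ℕ) (k : ℕ) :
    (Fintype.card F : ℂ) ^ k ∈ IntermediateField.adjoin ℚ {z : ℂ | z ^ m = 1} :=
  pow_mem (natCast_mem _ _) _

/-- The slopes of a CM number. -/
theorem exists_slopes {m : ℕ} (hm : 3 ≤ m) (hF : m ∣ Fintype.card F - 1) {η : MulChar F ℂ}
    (hη : orderOf η = m) {α : ℂ} (hα : IsCM m F α) :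
    ∃ s : ℕ → ℕ, (∀ t, s (t % m) = s t) ∧
      (∀ t, t.Coprime m → s t ≤ resDeg m F) ∧
      (∀ t, t.Coprime m → s (ringChar F * t) = s t) ∧
      (∀ t, t.Coprime m → t < m → s (m - t) = resDeg m F - s t) ∧
      ∀ t, t.Coprime m → ∀ A : ValuationSubring ℂ, IsPlace m η A t →
        A.valuation (α ^ resDeg m F) = A.valuation ((Fintype.card F : ℂ) ^ s t) := by
  classical
  have h1 : ∀ t, t.Coprime m → ∃ k : ℕ, ∀ A : ValuationSubring ℂ, IsPlace m η A t →
      A.valuation (α ^ resDeg m F) = A.valuation ((Fintype.card F : ℂ) ^ k) := by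
    intro t ht
    obtain ⟨A, hA⟩ := exists_place hm hF hη ht
    obtain ⟨k, hk⟩ := hα.value A
    exact ⟨k, fun A' hA' => same_value hm hF hη hA hA' (pow_mem hα.mem _) (card_mem m k) hk⟩
  choose! k hk using h1
  have hmod : ∀ t, t.Coprime m → (t % m).Coprime m := by
    intro t ht
    have h := Nat.gcd_rec m t
    rw [Nat.Coprime, ← h, Nat.gcd_comm]
    exact ht
  have hs : ∀ t, t.Coprime m → ∀ A : ValuationSubring ℂ, IsPlace m η A t →
        A.valuation (α ^ resDeg m F) = A.valuation ((Fintype.card F : ℂ) ^ k (t % m)) := by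
    intro t ht A hA
    exact hk _ (hmod t ht) A (place_mod hF (Nat.mod_mod _ _).symm hA)
  have hconj : ∀ t, t.Coprime m → t < m → k ((m - t) % m) + k (t % m) = resDeg m F := by
    intro t ht htm
    obtain ⟨A, hA⟩ := exists_place hm hF hη ht
    obtain ⟨A', hA', hv⟩ := place_conj hm hF hA
    have ht' : (m - t).Coprime m := by
      have h3 := (Nat.coprime_sub_self_left htm.le).2 ht.symm
      have h4 : (m - t) + t = m := by omega
      have h5 : (m - t).Coprime ((m - t) + t) := by simpa using h3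
      rwa [h4] at h5
    have h2 : IsPlace m η A' (m - t) := by
      refine place_mod hF ?_ hA'
      have h3 : (((m - 1) * t : ℕ) : ZMod m) = ((m - t : ℕ) : ZMod m) := by
        rw [Nat.cast_mul, Nat.cast_sub (by omega), Nat.cast_sub htm.le, CharP.cast_eq_zero]
        push_cast
        ring
      exact (ZMod.natCast_eq_natCast_iff' _ _ _).1 h3
    have h7 := (hv _ _).1 (hs _ ht' A' h2)
    have h8 := hs _ ht A hA
    rw [map_pow (starRingEnd ℂ), map_pow (starRingEnd ℂ), map_natCast] at h7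
    have h9 : A.valuation ((Fintype.card F : ℂ) ^ (k ((m - t) % m) + k (t % m))) =
        A.valuation ((Fintype.card F : ℂ) ^ resDeg m F) := by
      rw [pow_add, map_mul, ← h7, ← h8, ← map_mul, ← mul_pow, mul_comm, hα.norm]
    exact card_pow_inj (F := F) hA.1 h9
  refine ⟨fun t => k (t % m), fun t => by simp only [Nat.mod_mod], ?_, ?_, ?_, hs⟩
  · intro t ht
    have h2 := hconj (t % m) (hmod t ht) (Nat.mod_lt _ (by omega))
    rw [Nat.mod_mod] at h2
    simp only
    omega
  · intro t ht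
    obtain ⟨A, hA⟩ := exists_place hm hF hη ht
    have hpt : (ringChar F * t).Coprime m := Nat.Coprime.mul_left (char_coprime hF) ht
    have h2 := hs _ hpt A (place_frob hF hA)
    have h3 := hs _ ht A hA
    exact card_pow_inj (F := F) hA.1 (h2.symm.trans h3)
  · intro t ht htm
    have := hconj t ht htm
    simp only
    omega


theorem slopes_unique {A : ValuationSubring ℂ}
    (hA : A.valuation ((ringChar F : ℕ) : ℂ) < 1) {k l : ℕ} {x : ℂ}
    (h : A.valuation x = A.valuation ((Fintype.card F : ℂ) ^ k))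
    (h' : A.valuation x = A.valuation ((Fintype.card F : ℂ) ^ l)) : k = l :=
  card_pow_inj (F := F) hA (h.symm.trans h')

/-- CM numbers with the same slopes are equal up to a root of unity. -/
theorem pow_eq_of_slopes {m : ℕ} (hm : 3 ≤ m) (hF : m ∣ Fintype.card F - 1) {η : MulChar F ℂ}
    (hη : orderOf η = m) {α β : ℂ} (hα : IsCM m F α) (hβ : IsCM m F β) (s s' : ℕ → ℕ)
    (hs : ∀ t, t.Coprime m → ∀ A : ValuationSubring ℂ, IsPlace m η A t →
        A.valuation (α ^ resDeg m F) = A.valuation ((Fintype.card F : ℂ) ^ s t))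
    (hs' : ∀ t, t.Coprime m → ∀ A : ValuationSubring ℂ, IsPlace m η A t →
        A.valuation (β ^ resDeg m F) = A.valuation ((Fintype.card F : ℂ) ^ s' t))
    (h : ∀ t, t.Coprime m → s t = s' t) : ∃ N : ℕ, 0 < N ∧ α ^ N = β ^ N := by
  refine kron hm hF hα hβ fun A hA => ?_
  obtain ⟨t, ht, hp⟩ := exists_type hm hF hη A hA
  rw [hs t ht A hp, hs' t ht A hp, h t ht]

theorem mod_ne {m a : ℕ} (ha : 0 < a) (ham : a < m) : a % m ≠ 0 := by
  rw [Nat.mod_eq_of_lt ham]
  omega

theorem add_mod_ne {m x c : ℕ} (hc : 0 < c) (hcm : c < m) (h : x % m + c ≠ m) :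
    (x + c) % m ≠ 0 := by
  intro h0
  have h1 : (x % m + c) % m = 0 := by
    rw [Nat.add_mod, Nat.mod_mod, ← Nat.add_mod]
    exact h0
  have h2 : x % m < m := Nat.mod_lt _ (by omega)
  obtain ⟨k, hk⟩ := Nat.dvd_of_mod_eq_zero h1
  have h3 : k < 2 := by
    by_contra h4
    have h5 : m * 2 ≤ m * k := Nat.mul_le_mul_left m (by omega)
    omega
  interval_cases k
  · omega
  · omega

/-- The product of CM numbers divisible by `q ^ ν` is, up to relations, `q ^ ν` times a product of
CM numbers. -/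
theorem key {m : ℕ} (hmd : m ∈ CC48.levels) (hF : m ∣ Fintype.card F - 1) {i ν : ℕ} (hν : 2 * ν ≤ i)
    {α : Fin i → ℂ} (hα : ∀ j, IsCM m F (α j))
    (hint : IsIntegral ℤ ((∏ j, α j) / (Fintype.card F : ℂ) ^ ν)) :
    ∃ β : Fin (i - 2 * ν) → ℂ, (∀ k, IsCM m F (β k)) ∧
      ∑ j, sym (α j) - ν • sym (Fintype.card F : ℂ) - ∑ k, sym (β k) ∈ relations m F := by
  classical
  have hm : 3 ≤ m := by
    have h3 : ∀ m ∈ CC48.levels, 3 ≤ m := by decide
    exact h3 m hmd
  have hp := char_coprime hF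
  have : NeZero m := ⟨by omega⟩
  have hζ : IsPrimitiveRoot (Complex.exp (2 * Real.pi * Complex.I / m)) m :=
    Complex.isPrimitiveRoot_exp m (by omega)
  obtain ⟨η, hη⟩ := MulChar.exists_mulChar_orderOf F hF hζ
  -- slopes
  choose s hs0 hs1 hs2 hs3 hs4 using fun j => exists_slopes hm hF hη (hα j)
  have hmod : ∀ t : ℕ, t.Coprime m → (t % m).Coprime m := fun t ht => CC48.coprime_mod ht
  have hlt : ∀ t : ℕ, t % m < m := fun t => Nat.mod_lt _ (by omega)
  have h1 : ∀ j, ∃ a b, CC48.Val m a b ∧ ∀ t, t.Coprime m →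
      av m (ringChar F) (resDeg m F) t a b = s j t := by
    intro j
    obtain ⟨a, b, hab, h⟩ := CC48.exists_of_average hmd hp (s j)
      (fun t _ ht => by rw [hs0 j, hs2 j t ht])
      (fun t htm ht => by
        rw [hs3 j t ht htm]
        exact Nat.sub_add_cancel (hs1 j t ht))
    refine ⟨a, b, hab, fun t ht => ?_⟩
    have h2 := h (t % m) (hlt t) (hmod t ht)
    rw [CC48.av_mod, hs0 j, av_eq] at h2
    exact h2
  choose a b hab hav using h1
  -- the slopes of the Jacobi sums
  have hJ : ∀ x y, CC48.Val m x y → ∀ t, t.Coprime m → ∀ A : ValuationSubring ℂ, IsPlace m η A t →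
      A.valuation (jacobiSum (η ^ x) (η ^ y) ^ resDeg m F) =
        A.valuation ((Fintype.card F : ℂ) ^ av m (ringChar F) (resDeg m F) t x y) := by
    intro x y hxy t ht A hA
    exact jac_value hm hF ht hA hxy.1 hxy.2.1 hxy.2.2.1 hxy.2.2.2.1 hxy.2.2.2.2
  have hJcm : ∀ x y, CC48.Val m x y → IsCM m F (jacobiSum (η ^ x) (η ^ y)) := by
    intro x y hxy
    exact Pool.Agent.Helper67.CC.jac_cm hm hF hη hxy.1 hxy.2.1 hxy.2.2.1 hxy.2.2.2.1 hxy.2.2.2.2
  -- `α j` is a Jacobi sum up to relations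
  have h2 : ∀ j, sym (α j) - sym (jacobiSum (η ^ a j) (η ^ b j)) ∈ relations m F := by
    intro j
    apply AddSubgroup.subset_closure
    left
    left
    refine ⟨_, _, hα j, hJcm _ _ (hab j), ?_, rfl⟩
    exact pow_eq_of_slopes hm hF hη (hα j) (hJcm _ _ (hab j)) _ _ (hs4 j) (hJ _ _ (hab j))
      (fun t ht => (hav j t ht).symm)
  -- the inequality
  have h3 : ∀ t, t.Coprime m → ν * resDeg m F ≤
      ∑ j, av m (ringChar F) (resDeg m F) t (a j) (b j) := by
    intro t ht
    obtain ⟨A, hA⟩ := exists_place hm hF hη ht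
    rw [Finset.sum_congr rfl (fun j _ => hav j t ht)]
    exact sum_slopes hA.1 (fun j => hs4 j t ht A hA) hint
  let Q := (ℂ →₀ ℤ) ⧸ relations m F
  let mk : (ℂ →₀ ℤ) →+ Q := QuotientAddGroup.mk' (relations m F)
  have hmk : ∀ x, mk x = 0 ↔ x ∈ relations m F := fun x => QuotientAddGroup.eq_zero_iff x
  let L : ℕ → ℕ → Q := fun x y => mk (sym (jacobiSum (η ^ x) (η ^ y)))
  obtain ⟨a', b', hab', hL⟩ := CC48.exists_decomposition hmd hp (A := Q)
    (q := mk (sym (Fintype.card F : ℂ))) (L := L)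
    (by
      intro x y x' y' hxy hxy' h0
      have h : ∀ t, t.Coprime m → av m (ringChar F) (resDeg m F) t x y =
          av m (ringChar F) (resDeg m F) t x' y' := by
        intro t ht
        have h2 := h0 (t % m) (hlt t) (hmod t ht)
        rw [CC48.av_mod, CC48.av_mod, av_eq, av_eq] at h2
        exact h2
      have h4 : mk (sym (jacobiSum (η ^ x) (η ^ y)) - sym (jacobiSum (η ^ x') (η ^ y'))) = 0 := by
        rw [hmk]
        apply AddSubgroup.subset_closure
        left
        left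
        refine ⟨_, _, hJcm _ _ hxy, hJcm _ _ hxy', ?_, rfl⟩
        exact pow_eq_of_slopes hm hF hη (hJcm _ _ hxy) (hJcm _ _ hxy') _ _ (hJ _ _ hxy)
          (hJ _ _ hxy') h
      rw [map_sub, sub_eq_zero] at h4
      exact h4)
    (by
      intro x y hxy
      have h4 := (hmk _).2 (Pool.Agent.Helper67.CC.jac_dual hm hF hη hxy.1 hxy.2.1 hxy.2.2.1 hxy.2.2.2.1 hxy.2.2.2.2)
      rw [map_sub, map_add, sub_eq_zero] at h4
      exact h4)
    (by
      intro x y z hxy hxyz hyz hxyz'
      have h4 := (hmk _).2 (Pool.Agent.Helper67.CC.jac_assoc hm hη (mod_ne hxy.1 hxy.2.1) (mod_ne hyz.1 hyz.2.1)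
        (mod_ne hyz.2.2.1 hyz.2.2.2.1) hxyz.1.ne' hxyz'.2.2.1.ne'
        (add_mod_ne hxyz.2.2.1 hxyz.2.2.2.1 hxyz.2.2.2.2))
      rw [map_sub, map_sub, map_add, sub_sub, sub_eq_zero] at h4
      exact h4)
    hν a b hab (fun t _ ht => by
      have h2 := h3 t ht
      simp only [← av_eq] at h2
      exact h2)
  refine ⟨fun k => jacobiSum (η ^ a' k) (η ^ b' k), fun k => hJcm _ _ (hab' k), ?_⟩
  have h5 : mk (∑ j, sym (α j)) = ∑ j, L (a j) (b j) := by
    rw [map_sum]
    apply Finset.sum_congr rfl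
    intro j _
    have h6 := (hmk _).2 (h2 j)
    rw [map_sub, sub_eq_zero] at h6
    exact h6
  rw [← hmk, map_sub, map_sub, h5, hL, map_nsmul, map_sum]
  abel

end Pool.Agent.Helper70.CC
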