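import Mathlib

/-!
# Integral elements of `ℚ(ζ_m)` have coefficients with denominator `m`
-/

set_option autoImplicit false

namespace Pool.Agent.Helper70.CC

open Finset

/-- `ℚ(ζ_m)` as a subfield of `ℂ`. -/
noncomputable abbrev cyc (m : ℕ) : IntermediateField ℚ ℂ := IntermediateField.adjoin ℚ {z : ℂ | z ^ m = 1}

theorem finite_roots {m : ℕ} (hm : 0 < m) : {z : ℂ | z ^ m = 1}.Finite := by
  have h : {z : ℂ | z ^ m = 1} ⊆ ((Polynomial.nthRoots m (1 : ℂ)).toFinset : Set ℂ) := by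
    intro z hz
    simp only [Multiset.mem_toFinset, coe_sort_coe, mem_coe]
    exact (Polynomial.mem_nthRoots hm).2 hz
  exact Set.Finite.subset (finite_toSet _) h

theorem finiteDim {m : ℕ} (hm : 0 < m) : FiniteDimensional ℚ (cyc m) := by
  have : Finite {z : ℂ | z ^ m = 1} := finite_roots hm
  apply IntermediateField.finiteDimensional_adjoin
  intro x hx
  have hx' : x ^ m = 1 := hx
  have h1 : IsIntegral ℤ x := by
    refine IsIntegral.of_pow hm ?_
    rw [hx']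
    exact isIntegral_one
  exact h1.tower_top

theorem inner_sum {m : ℕ} (hm : 0 < m) {ζ ω : ℂ} (hζ : ζ ^ m = 1) (hω : ω ^ m = 1) :
    ∑ k ∈ range m, ω ^ (m - k) * ζ ^ k = if ω = ζ then (m : ℂ) else 0 := by
  have hω0 : ω ≠ 0 := by
    rintro rfl
    rw [zero_pow (by omega)] at hω
    exact zero_ne_one hω
  have h1 : ∀ k ∈ range m, ω ^ (m - k) * ζ ^ k = (ζ / ω) ^ k := by
    intro k hk
    have hk' := mem_range.1 hk
    have h2 : ω ^ (m - k) * ω ^ k = 1 := by
      rw [← pow_add, Nat.sub_add_cancel hk'.le, hω]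
    rw [div_pow, eq_div_iff (pow_ne_zero _ hω0)]
    calc ω ^ (m - k) * ζ ^ k * ω ^ k = (ω ^ (m - k) * ω ^ k) * ζ ^ k := by ring
      _ = ζ ^ k := by rw [h2, one_mul]
  rw [sum_congr rfl h1]
  split_ifs with h
  · rw [h, div_self (h ▸ hω0)]
    simp
  · have h3 : ζ / ω ≠ 1 := by
      intro h4
      rw [div_eq_one_iff_eq hω0] at h4
      exact h h4.symm
    have h5 : (ζ / ω) ^ m = 1 := by rw [div_pow, hζ, hω, div_one]
    rw [geom_sum_eq h3, h5, sub_self, zero_div]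

theorem exists_coeff {m : ℕ} (hm : 0 < m) {ζ : ℂ} (hζ : IsPrimitiveRoot ζ m) {y : ℂ}
    (hy : IsIntegral ℤ y) (hyL : y ∈ cyc m) :
    ∃ c : ℕ → ℤ, (m : ℂ) * y = ∑ k ∈ range m, (c k : ℂ) * ζ ^ k := by
  classical
  have : NeZero m := ⟨by omega⟩
  have : FiniteDimensional ℚ (cyc m) := finiteDim hm
  have hζL : ζ ∈ cyc m := IntermediateField.subset_adjoin _ _ hζ.pow_eq_one
  set y' : cyc m := ⟨y, hyL⟩ with hy'
  set ζ' : cyc m := ⟨ζ, hζL⟩ with hζ'
  have hζi : IsIntegral ℤ ζ' := by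
    refine IsIntegral.of_pow hm ?_
    have : ζ' ^ m = 1 := Subtype.ext (by simpa using hζ.pow_eq_one)
    rw [this]
    exact isIntegral_one
  have hyi : IsIntegral ℤ y' := by
    have h1 : IsIntegral ℤ (algebraMap (cyc m) ℂ y') := hy
    exact (isIntegral_algebraMap_iff (algebraMap (cyc m) ℂ).injective).1 h1
  have h1 : ∀ k : ℕ, ∃ c : ℤ, (c : ℚ) = Algebra.trace ℚ (cyc m) (y' * ζ' ^ (m - k)) := by
    intro k
    have h2 : IsIntegral ℤ (Algebra.trace ℚ (cyc m) (y' * ζ' ^ (m - k))) :=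
      Algebra.isIntegral_trace (hyi.mul (hζi.pow _))
    obtain ⟨c, hc⟩ := IsIntegrallyClosed.isIntegral_iff.1 h2
    exact ⟨c, by simpa using hc⟩
  choose c hc using h1
  refine ⟨c, ?_⟩
  have h2 : ∀ k : ℕ, (c k : ℂ) = ∑ σ : cyc m →ₐ[ℚ] ℂ, σ y' * σ ζ' ^ (m - k) := by
    intro k
    have h3 := trace_eq_sum_embeddings (K := ℚ) ℂ (x := y' * ζ' ^ (m - k))
    rw [← hc k] at h3
    simp only [map_intCast, map_mul, map_pow] at h3
    exact h3
  have h4 : ∑ k ∈ range m, (c k : ℂ) * ζ ^ k =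
      ∑ σ : cyc m →ₐ[ℚ] ℂ, σ y' * ∑ k ∈ range m, σ ζ' ^ (m - k) * ζ ^ k := by
    simp only [h2, sum_mul, mul_sum]
    rw [sum_comm]
    apply sum_congr rfl
    intro σ _
    apply sum_congr rfl
    intro k _
    ring
  rw [h4]
  have h5 : ∀ σ : cyc m →ₐ[ℚ] ℂ, (σ ζ') ^ m = 1 := by
    intro σ
    rw [← map_pow]
    have : ζ' ^ m = 1 := Subtype.ext (by simpa using hζ.pow_eq_one)
    rw [this, map_one]
  let i0 : cyc m →ₐ[ℚ] ℂ := (algebraMap (cyc m) ℂ).toRatAlgHom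
  have hi0 : ∀ x : cyc m, i0 x = (x : ℂ) := fun x => rfl
  have h6 : ∀ σ : cyc m →ₐ[ℚ] ℂ, σ ζ' = ζ ↔ σ = i0 := by
    intro σ
    constructor
    · intro h
      have h9 : ∀ x (hx : x ∈ cyc m), σ ⟨x, hx⟩ = x := by
        intro x hx
        induction hx using IntermediateField.adjoin_induction with
        | mem x hx =>
          have hx' : x ^ m = 1 := hx
          obtain ⟨j, -, hj⟩ := hζ.eq_pow_of_pow_eq_one hx'
          have h7 : (⟨x, IntermediateField.subset_adjoin _ _ hx⟩ : cyc m) = ζ' ^ j :=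
            Subtype.ext hj.symm
          rw [h7, map_pow, h, hj]
        | algebraMap x => exact AlgHom.map_algebraMap σ x
        | add x y hx hy h1 h2 =>
          have : (⟨x + y, add_mem hx hy⟩ : cyc m) = ⟨x, hx⟩ + ⟨y, hy⟩ := rfl
          rw [this, map_add, h1, h2]
        | inv x hx h1 =>
          have : (⟨x⁻¹, inv_mem hx⟩ : cyc m) = ⟨x, hx⟩⁻¹ := rfl
          rw [this, map_inv₀, h1]
        | mul x y hx hy h1 h2 =>
          have : (⟨x * y, mul_mem hx hy⟩ : cyc m) = ⟨x, hx⟩ * ⟨y, hy⟩ := rfl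
          rw [this, map_mul, h1, h2]
      apply AlgHom.ext
      intro x
      exact h9 x x.2
    · rintro rfl
      rfl
  symm
  refine (Finset.sum_eq_single i0 ?_ ?_).trans ?_
  · intro σ _ hσ
    rw [inner_sum hm hζ.pow_eq_one (h5 _), if_neg (fun h => hσ ((h6 _).1 h)), mul_zero]
  · intro h
    exact absurd (mem_univ _) h
  · rw [inner_sum hm hζ.pow_eq_one (h5 _), if_pos ((h6 _).2 rfl)]
    rw [mul_comm]
    rfl

end Pool.Agent.Helper70.CC
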