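import Pool.Agent.Helper71.AA.Defs

/-!
# Abelian varieties with complex multiplication by a cyclotomic field: definitions
-/

set_option autoImplicit false

namespace Pool.Agent.Helper70.CC

open Module Pool.Agent.Helper71.AA

section Numbers

variable (m : ℕ) (F : Type) [Field F] [Fintype F]

/-- The order `f` of the characteristic of `F` modulo `m`: the residue degree of the primes over
it in `ℚ(ζ_m)`. -/
noncomputable def resDeg : ℕ := orderOf ((ringChar F : ℕ) : ZMod m)

/-- `α` is a CM number: an algebraic integer in the field `ℚ(ζ_m)` generated by the `m`-th roots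
of unity, with `α ᾱ = q`, the number of elements of `F`, such that for each valuation of `ℂ` the
value of `α ^ f` is the value of a power of `q`.

By the theorems of Weil, Honda and Tate and Shimura and Taniyama, these are the eigenvalues of
the Frobenius of those abelian varieties over `F` with all eigenvalues in `ℚ(ζ_m)` that over a
finite extension of `F` are isogenous to a product of reductions of abelian varieties with complex
multiplication by `ℚ(ζ_m)` or a subfield.  If `f = 1` these are the algebraic integers of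
`ℚ(ζ_m)` with `α ᾱ = q` that have slopes `0` or `1` at every prime. -/
structure IsCM (α : ℂ) : Prop where
  integral : IsIntegral ℤ α
  mem : α ∈ IntermediateField.adjoin ℚ {z : ℂ | z ^ m = 1}
  norm : α * (starRingEnd ℂ) α = Fintype.card F
  value : ∀ A : ValuationSubring ℂ, ∃ k : ℕ,
    A.valuation (α ^ resDeg m F) = A.valuation ((Fintype.card F : ℂ) ^ k)

/-- The symbol `[α]` in the free abelian group on the complex numbers. -/
noncomputable def sym (α : ℂ) : ℂ →₀ ℤ := Finsupp.single α 1

/-- The relations, a subgroup of the free abelian group on the complex numbers.  It is generated by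
`[α] - [β]` for CM numbers whose quotient is a root of unity (isogenies), by
`[α] + [ᾱ] - [q]` for CM numbers (duality), and by
`[J(χ, ψ)] + [J(χψ, φ)] - [J(ψ, φ)] - [J(χ, ψφ)]`, for the Jacobi sums of characters of `F^*` of
order dividing `m` (the two decompositions of the cohomology of a Fermat surface into products of
the cohomology of Fermat curves). -/
noncomputable def relations : AddSubgroup (ℂ →₀ ℤ) :=
  AddSubgroup.closure
    ({x | ∃ α β : ℂ, IsCM m F α ∧ IsCM m F β ∧ (∃ N : ℕ, 0 < N ∧ α ^ N = β ^ N) ∧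
        x = sym α - sym β} ∪
      {x | ∃ α : ℂ, IsCM m F α ∧
        x = sym α + sym ((starRingEnd ℂ) α) - sym (Fintype.card F : ℂ)} ∪
      {x | ∃ χ ψ φ : MulChar F ℂ, χ ^ m = 1 ∧ ψ ^ m = 1 ∧ φ ^ m = 1 ∧
        χ ≠ 1 ∧ ψ ≠ 1 ∧ φ ≠ 1 ∧ χ * ψ ≠ 1 ∧ ψ * φ ≠ 1 ∧ χ * ψ * φ ≠ 1 ∧
        x = sym (jacobiSum χ ψ) + sym (jacobiSum (χ * ψ) φ) - sym (jacobiSum ψ φ) -
          sym (jacobiSum χ (ψ * φ))})

/-- The span of all products `e₁ ⋯ e_i` of eigenvectors `e_j` of `Φ`, with eigenvalues `α_j`, such
that `[α₁] + … + [α_i] - ν [q] - [β₁] - … - [β_(i-2ν)]` is a relation for some CM numbers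
`β_k`. -/
noncomputable def fermatConiveau {V : Type} [AddCommGroup V] [Module ℂ V] (Φ : Module.End ℂ V)
    (i ν : ℕ) : Submodule ℂ (ExteriorAlgebra ℂ V) :=
  Submodule.span ℂ {x | ∃ (e : Fin i → V) (α : Fin i → ℂ) (β : Fin (i - 2 * ν) → ℂ),
    (∀ j, Φ (e j) = α j • e j) ∧ (∀ k, IsCM m F (β k)) ∧
    ∑ j, sym (α j) - ν • sym (Fintype.card F : ℂ) - ∑ k, sym (β k) ∈ relations m F ∧
    x = ExteriorAlgebra.ιMulti ℂ i e}

end Numbers

end Pool.Agent.Helper70.CC
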