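import Mathlib
import Pool.Agent.Helper75.Zss.Link

/-!
# Letters, carries and CM types modulo `m`
-/

set_option autoImplicit false

namespace Pool.Agent.Helper70.CC

/-- The carry `(⟨ta⟩ + ⟨tb⟩ - ⟨t(a+b)⟩) / m ∈ {0, 1}`. -/
def cr {m : ℕ} (a b : ZMod m) (t : (ZMod m)ˣ) : ℤ :=
  if m ≤ ((t : ZMod m) * a).val + ((t : ZMod m) * b).val then 1 else 0

/-- `s` is (the indicator function of) a CM type. -/
def IsType {m : ℕ} (s : (ZMod m)ˣ → ℤ) : Prop :=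
  (∀ t, s t = 0 ∨ s t = 1) ∧ ∀ t, s (-t) = 1 - s t

/-- Every CM type is a Fermat type. -/
def AllFermat (m : ℕ) : Prop :=
  ∀ s : (ZMod m)ˣ → ℤ, IsType s →
    ∃ a b : ZMod m, a ≠ 0 ∧ b ≠ 0 ∧ a + b ≠ 0 ∧ ∀ t, cr a b t = s t

/-- All relations are generated by pair relations. -/
def PairGen (m : ℕ) : Prop :=
  ∀ v : ZMod m → ℤ, v 0 = 0 → (∀ t : ZMod m, IsUnit t → ∑ᶠ y, v y * ((t * y).val : ℤ) = 0) →
    v ∈ AddSubgroup.closure (Pool.Agent.Helper75.Poly.pairs m)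

/-- The degrees. -/
def degs : Finset ℕ := {3, 4, 5, 6, 7, 8, 9, 10, 12, 14, 15, 16, 18, 20, 22, 24, 30, 36, 42}

end Pool.Agent.Helper70.CC
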