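import Pool.Agent.Helper70.CC.Assembly

set_option autoImplicit false

namespace Pool.Agent.Helper70.CC

open Module Pool.Agent.Helper71.AA Pool.Agent.Helper71.AA.Div Pool.Agent.Helper73.KT
  Pool.Agent.Helper15.CC

variable {F : Type} [Field F] [Fintype F]

theorem mem_fermat {m : ℕ} (hmd : m ∈ CC48.levels) (hF : m ∣ Fintype.card F - 1) {V : Type}
    [AddCommGroup V] [Module ℂ V] {Φ : Module.End ℂ V} {d : ℕ} (b : Basis (Fin d) ℂ V)
    {lam : Fin d → ℂ} (hb : ∀ i, Φ (b i) = lam i • b i) (hlam : ∀ i, IsCM m F (lam i))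
    {ν : ℕ} {s : Finset (Fin d)} (hν : 2 * ν ≤ s.card)
    (hs : IsIntegral ℤ ((∏ j ∈ s, lam j) / (Fintype.card F : ℂ) ^ ν)) :
    b.ExteriorAlgebra s ∈ fermatConiveau m F Φ s.card ν := by
  set g := Set.powersetCard.ofFinEmbEquiv.symm (Set.powersetCard.ofCard
      (rfl : s.card = s.card)) with hg
  have h1 : b.ExteriorAlgebra s = ExteriorAlgebra.ιMulti ℂ s.card (⇑b ∘ ⇑g) := by
    rw [ExteriorAlgebra.basis_apply_ofCard b (rfl : s.card = s.card)]
  have h3 : ∏ i ∈ s, lam i = ∏ j, lam (g j) := by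
    have h4 : s = Finset.univ.map g.toEmbedding := by
      ext x
      rw [Finset.mem_map]
      constructor
      · intro hx
        have h5 := (Set.powersetCard.mem_range_ofFinEmbEquiv_symm_iff_mem
          (s := Set.powersetCard.ofCard (rfl : s.card = s.card)) (x)).2 hx
        obtain ⟨y, hy⟩ := h5
        exact ⟨y, Finset.mem_univ _, hy⟩
      · rintro ⟨y, -, rfl⟩
        exact (Set.powersetCard.mem_range_ofFinEmbEquiv_symm_iff_mem
          (s := Set.powersetCard.ofCard (rfl : s.card = s.card)) _).1 ⟨y, rfl⟩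
    conv_lhs => rw [h4]
    rw [Finset.prod_map]
    rfl
  rw [h3] at hs
  obtain ⟨β, hβ, hrel⟩ := key hmd hF hν (fun j => hlam (g j)) hs
  apply Submodule.subset_span
  exact ⟨_, _, β, fun j => hb (g j), hβ, hrel, h1⟩

/-- The Galois coniveau is the Fermat coniveau. -/
theorem main {m : ℕ} (hmd : m ∈ CC48.levels) (hF : m ∣ Fintype.card F - 1) {V : Type}
    [AddCommGroup V] [Module ℂ V] [FiniteDimensional ℂ V] (Φ : Module.End ℂ V)
    (hΦ : Φ.IsSemisimple) (hcm : ∀ α : ℂ, Φ.HasEigenvalue α → IsCM m F α) (i ν : ℕ)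
    (hν : 2 * ν ≤ i) :
    galoisConiveau (Fintype.card F) Φ i ν = fermatConiveau m F Φ i ν := by
  classical
  obtain ⟨d, b, lam, hb⟩ := eigenbasis Φ hΦ
  have hlam : ∀ j, IsCM m F (lam j) := fun j => hcm _ (hasEigenvalue_of_basis Φ b lam hb j)
  have hq : (Fintype.card F : ℂ) ≠ 0 := card_ne_zero
  rw [galois_eq b hq hb (fun j => (hlam j).norm) i ν hν]
  apply le_antisymm
  · rw [Submodule.span_le]
    rintro _ ⟨s, ⟨hs, hint⟩, rfl⟩
    subst hs
    exact mem_fermat hmd hF b hb hlam hν hint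
  · unfold fermatConiveau
    rw [Submodule.span_le]
    rintro x ⟨e, α, β, he, hβ, hrel, rfl⟩
    by_cases h0 : ∃ j, e j = 0
    · obtain ⟨j, hj⟩ := h0
      rw [(ExteriorAlgebra.ιMulti ℂ i).map_coord_zero j hj]
      exact Submodule.zero_mem _
    · push Not at h0
      have hα : ∀ j, IsCM m F (α j) := fun j => hcm _
        (Module.End.hasEigenvalue_of_hasEigenvector
          ⟨Module.End.mem_eigenspace_iff.2 (he j), h0 j⟩)
      have hint := integral_of_rel hα hβ hrel
      have hmap : ExteriorAlgebra.map Φ (ExteriorAlgebra.ιMulti ℂ i e) =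
          (∏ j, α j) • ExteriorAlgebra.ιMulti ℂ i e := by
        rw [ExteriorAlgebra.map_apply_ιMulti]
        have h1 : (⇑Φ ∘ e) = fun j => α j • e j := by
          funext j
          exact he j
        rw [h1]
        exact (ExteriorAlgebra.ιMulti ℂ i (M := V)).toMultilinearMap.map_smul_univ α e
      have hmem : ExteriorAlgebra.ιMulti ℂ i e ∈ ⋀[ℂ]^i V :=
        (exteriorPower.ιMulti ℂ i e).2
      refine Submodule.span_mono ?_ (eigen_mem b Φ lam hb hmem hmap)
      rintro _ ⟨s, ⟨hs, hsμ⟩, rfl⟩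
      exact ⟨s, ⟨hs, by rw [hsμ]; exact hint⟩, rfl⟩

end Pool.Agent.Helper70.CC
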