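import Pool.Agent.Helper70.CC.Defs
import Pool.Agent.Helper40.QC.Stick

/-!
# Places of type `t`
-/

set_option autoImplicit false

namespace Pool.Agent.Helper70.CC

open Module Pool.Agent.Helper71.AA Pool.Agent.Helper73.KT

/-- The residue map of the algebraic integers at a valuation subring of `ℂ`. -/
noncomputable def resMap (A : ValuationSubring ℂ) :
    integralClosure ℤ ℂ →+* IsLocalRing.ResidueField A :=
  (IsLocalRing.residue A).comp
    ((algebraMap (integralClosure ℤ ℂ) ℂ).codRestrict A.toSubring (fun x =>
      A.mem_toSubring _ |>.2 (by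
        have h : IsIntegral ℤ ((x : integralClosure ℤ ℂ) : ℂ) := x.2
        have h1 : IsIntegral A ((x : integralClosure ℤ ℂ) : ℂ) := h.tower_top
        obtain ⟨y, hy⟩ := IsIntegrallyClosed.isIntegral_iff.1 h1
        rw [show algebraMap (integralClosure ℤ ℂ) ℂ x = algebraMap A ℂ y from hy.symm]
        exact y.2)))

/-- The number of `i < f` without a carry at `p^i t`. -/
def av (m p f t a b : ℕ) : ℕ :=
  ∑ i ∈ Finset.range f, if p ^ i * t * a % m + p ^ i * t * b % m < m then 1 else 0

variable {F : Type} [Field F] [Fintype F]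

/-- `A` is a valuation subring over the characteristic of `F` at which the character `η` of order
`m` is the power `t (q - 1) / m` of the Teichmüller character. -/
def IsPlace (m : ℕ) (η : MulChar F ℂ) (A : ValuationSubring ℂ) (t : ℕ) : Prop :=
  A.valuation ((ringChar F : ℕ) : ℂ) < 1 ∧
    ∃ (ι : F →+* IsLocalRing.ResidueField A) (τ : MulChar F ℂ),
      (∀ x : Fˣ, res (resMap A) (τ x) = ι x) ∧
        η = τ ^ (t * ((Fintype.card F - 1) / m))

end Pool.Agent.Helper70.CC
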