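import Pool.Agent.Helper70.CC.Place
import Pool.Agent.Helper70.CC.Coef

/-!
# Places of the same type
-/

set_option autoImplicit false

namespace Pool.Agent.Helper70.CC

open Finset Pool.Agent.Helper73.KT

variable {F : Type} [Field F] [Fintype F]

theorem int_mem (A : ValuationSubring ℂ) {y : ℂ} (hy : IsIntegral ℤ y) : y ∈ A := by
  have h1 : IsIntegral A y := hy.tower_top
  obtain ⟨z, hz⟩ := IsIntegrallyClosed.isIntegral_iff.1 h1
  rw [show y = algebraMap A ℂ z from hz.symm]
  exact z.2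

theorem resMap_eq (A : ValuationSubring ℂ) {y : ℂ} (hy : IsIntegral ℤ y) :
    res (resMap A) y = IsLocalRing.residue A ⟨y, int_mem A hy⟩ := by
  rw [res_eq (resMap A) hy]
  rfl

theorem res_zero_iff (A : ValuationSubring ℂ) {y : ℂ} (hy : IsIntegral ℤ y) :
    res (resMap A) y = 0 ↔ A.valuation y < 1 := by
  rw [resMap_eq A hy, IsLocalRing.residue_eq_zero_iff, A.valuation_lt_one_iff]

theorem val_le_one (A : ValuationSubring ℂ) {y : ℂ} (hy : IsIntegral ℤ y) :
    A.valuation y ≤ 1 := (A.valuation_le_one_iff y).2 (int_mem A hy)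

theorem val_eq_one_iff (A : ValuationSubring ℂ) {y : ℂ} (hy : IsIntegral ℤ y) :
    A.valuation y = 1 ↔ res (resMap A) y ≠ 0 := by
  rw [Ne, res_zero_iff A hy, not_lt]
  exact ⟨fun h => h.ge, fun h => le_antisymm (val_le_one A hy) h⟩

/-- A natural number prime to the residue characteristic is a unit. -/
theorem val_nat {A : ValuationSubring ℂ} {p n : ℕ} (hA : A.valuation (p : ℂ) < 1)
    (hn : n.Coprime p) : A.valuation (n : ℂ) = 1 := by
  rw [val_eq_one_iff A (isIntegral_natCast n), res_natCast]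
  intro h
  have hp : ((p : ℕ) : IsLocalRing.ResidueField A) = 0 := by
    rw [← res_natCast (resMap A) p, res_zero_iff A (isIntegral_natCast p)]
    exact hA
  have h1 : ((1 : ℤ) : IsLocalRing.ResidueField A) = 0 := by
    have h2 := Nat.gcd_eq_gcd_ab n p
    rw [hn.gcd_eq_one] at h2
    rw [show (1 : ℤ) = n * n.gcdA p + p * n.gcdB p from by exact_mod_cast h2]
    push_cast
    rw [h, hp, zero_mul, zero_mul, add_zero]
  rw [Int.cast_one] at h1
  exact one_ne_zero h1

theorem char_coprime {m : ℕ} (hF : m ∣ Fintype.card F - 1) : (ringChar F).Coprime m := by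
  have hp : (ringChar F).Prime := CharP.char_is_prime F _
  obtain ⟨n, -, hn⟩ := FiniteField.card F (ringChar F)
  rw [Nat.Prime.coprime_iff_not_dvd hp]
  intro h
  have h1 : ringChar F ∣ Fintype.card F - 1 := h.trans hF
  have h2 : ringChar F ∣ Fintype.card F := by
    rw [hn]
    exact dvd_pow_self _ n.ne_zero
  have h3 : 1 ≤ Fintype.card F := Fintype.card_pos
  have h4 : ringChar F ∣ 1 := by
    have := Nat.dvd_sub h2 h1
    rwa [Nat.sub_sub_self h3] at this
  exact hp.one_lt.ne' (Nat.dvd_one.1 h4)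

theorem char_pow (τ : MulChar F ℂ) : τ ^ (Fintype.card F - 1) = 1 := by
  classical
  rw [← Fintype.card_units]
  exact τ.pow_card_eq_one

theorem place_mod {m : ℕ} (hF : m ∣ Fintype.card F - 1) {η : MulChar F ℂ}
    {A : ValuationSubring ℂ} {t t' : ℕ} (htt : t % m = t' % m) (h : IsPlace m η A t) :
    IsPlace m η A t' := by
  obtain ⟨h1, ι, τ, hτ, hη⟩ := h
  refine ⟨h1, ι, τ, hτ, ?_⟩
  have h2 : m * ((Fintype.card F - 1) / m) = Fintype.card F - 1 := Nat.mul_div_cancel' hF
  have h3 : ∀ s : ℕ, τ ^ (s * ((Fintype.card F - 1) / m)) =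
      τ ^ (s % m * ((Fintype.card F - 1) / m)) := by
    intro s
    conv_lhs => rw [← Nat.div_add_mod s m]
    rw [add_mul, pow_add, mul_right_comm, h2, mul_comm (Fintype.card F - 1), mul_comm (s / m),
      pow_mul, char_pow, one_pow, one_mul]
  rw [hη, h3 t, htt, ← h3 t']

theorem place_frob {m : ℕ} (hF : m ∣ Fintype.card F - 1) {η : MulChar F ℂ}
    {A : ValuationSubring ℂ} {t : ℕ} (h : IsPlace m η A t) : IsPlace m η A (ringChar F * t) := by
  obtain ⟨h1, ι, τ, hτ, hη⟩ := h
  obtain ⟨n, hp, hn⟩ := FiniteField.card F (ringChar F)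
  have : Fact (ringChar F).Prime := ⟨hp⟩
  refine ⟨h1, ι.comp (iterateFrobenius F (ringChar F) (n - 1)), τ ^ (ringChar F ^ ((n : ℕ) - 1)),
    ?_, ?_⟩
  · intro x
    rw [MulChar.pow_apply_coe, res_pow _ (Pool.Agent.Helper40.QC.int_value τ x), hτ, RingHom.comp_apply,
      iterateFrobenius_def, map_pow]
  · rw [← pow_mul, hη]
    have h2 : ringChar F ^ ((n : ℕ) - 1) * (ringChar F * t * ((Fintype.card F - 1) / m)) =
        (Fintype.card F - 1) * (t * ((Fintype.card F - 1) / m)) +
          t * ((Fintype.card F - 1) / m) := by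
      have h3 : ringChar F ^ ((n : ℕ) - 1) * ringChar F = Fintype.card F := by
        rw [hn, ← pow_succ, Nat.sub_add_cancel n.pos]
      have h4 : Fintype.card F = (Fintype.card F - 1) + 1 :=
        (Nat.sub_add_cancel Fintype.card_pos).symm
      calc ringChar F ^ ((n : ℕ) - 1) * (ringChar F * t * ((Fintype.card F - 1) / m))
          = (ringChar F ^ ((n : ℕ) - 1) * ringChar F) * (t * ((Fintype.card F - 1) / m)) := by ring
        _ = ((Fintype.card F - 1) + 1) * (t * ((Fintype.card F - 1) / m)) := by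
            rw [h3, ← h4]
        _ = _ := by ring
    rw [h2, pow_add, pow_mul τ (Fintype.card F - 1), char_pow, one_pow, one_mul]

/-- The residue of the character. -/
theorem res_char {m : ℕ} {η : MulChar F ℂ} {A : ValuationSubring ℂ} {t : ℕ}
    {ι : F →+* IsLocalRing.ResidueField A} {τ : MulChar F ℂ}
    (hτ : ∀ x : Fˣ, res (resMap A) (τ x) = ι x)
    (hη : η = τ ^ (t * ((Fintype.card F - 1) / m))) (x : Fˣ) :
    res (resMap A) (η x) = ι ((x : F) ^ (t * ((Fintype.card F - 1) / m))) := by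
  rw [hη, MulChar.pow_apply_coe, res_pow _ (Pool.Agent.Helper40.QC.int_value τ x), hτ, map_pow]

theorem exists_gen {m : ℕ} {η : MulChar F ℂ} (hη : orderOf η = m) :
    ∃ g : Fˣ, IsPrimitiveRoot (η g) m := by
  obtain ⟨g, hg⟩ := IsCyclic.exists_generator (α := Fˣ)
  refine ⟨g, ?_, ?_⟩
  · rw [← MulChar.pow_apply_coe, ← hη, pow_orderOf_eq_one, MulChar.one_apply_coe]
  · intro l hl
    rw [← MulChar.pow_apply_coe] at hl
    rw [← hη, orderOf_dvd_iff_pow_eq_one]
    apply MulChar.ext
    intro a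
    obtain ⟨k, hk⟩ := Subgroup.mem_zpowers_iff.1 (hg a)
    rw [MulChar.one_apply_coe, ← hk]
    have h1 : ∀ y : Fˣ, (η ^ l) (y : F) = ((η ^ l).toUnitHom y : ℂ) := fun y =>
      (MulChar.coe_toUnitHom (η ^ l) y).symm
    rw [h1, map_zpow]
    have h2 : (η ^ l).toUnitHom g = 1 := by
      apply Units.ext
      rw [← h1, hl]
      rfl
    rw [h2, one_zpow]
    rfl

/-- The integral elements in the maximal ideal depend only on the type of the place. -/
theorem center {m : ℕ} (hm : 3 ≤ m) (hmp : m.Coprime (ringChar F)) {η : MulChar F ℂ}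
    (hη : orderOf η = m) {t : ℕ} {y : ℂ} (hy : IsIntegral ℤ y) (hyL : y ∈ cyc m) :
    ∃ P : Prop, ∀ A : ValuationSubring ℂ, IsPlace m η A t → (A.valuation y < 1 ↔ P) := by
  obtain ⟨g, hg⟩ := exists_gen hη
  obtain ⟨c, hc⟩ := exists_coeff (by omega) hg hy hyL
  refine ⟨∑ k ∈ range m, (c k : F) * ((g : F) ^ (t * ((Fintype.card F - 1) / m))) ^ k = 0, ?_⟩
  rintro A ⟨h1, ι, τ, hτ, hη'⟩
  have h2 : A.valuation ((m : ℂ) * y) = A.valuation y := by
    rw [map_mul, val_nat h1 hmp, one_mul]
  have hηi : IsIntegral ℤ (η g) := Pool.Agent.Helper40.QC.int_value η g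
  have hterm : ∀ k ∈ range m, IsIntegral ℤ ((c k : ℂ) * (η g) ^ k) := fun k _ =>
    (isIntegral_intCast (c k)).mul (hηi.pow k)
  have hint : ∀ z : ℤ, res (resMap A) (z : ℂ) = (z : IsLocalRing.ResidueField A) := by
    intro z
    rw [res_eq (resMap A) (isIntegral_intCast z)]
    have : (⟨(z : ℂ), isIntegral_intCast z⟩ : integralClosure ℤ ℂ) =
        (z : integralClosure ℤ ℂ) := Subtype.ext (by simp)
    rw [this, map_intCast]
  rw [← h2, hc, ← res_zero_iff A (IsIntegral.sum _ hterm), res_sum _ _ _ hterm]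
  have h3 : ∑ k ∈ range m, res (resMap A) ((c k : ℂ) * (η g) ^ k) =
      ι (∑ k ∈ range m, (c k : F) * ((g : F) ^ (t * ((Fintype.card F - 1) / m))) ^ k) := by
    rw [map_sum]
    apply sum_congr rfl
    intro k _
    rw [res_mul _ (isIntegral_intCast (c k)) (hηi.pow k), hint, res_pow _ hηi,
      res_char hτ hη', map_mul, map_intCast, map_pow ι _ k]
  rw [h3, map_eq_zero_iff _ ι.injective]

/-- The embedding of the ring of integers of `ℚ(ζ_m)` in the algebraic integers. -/
noncomputable def toInt (m : ℕ) : NumberField.RingOfIntegers (cyc m) →+* integralClosure ℤ ℂ where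
  toFun x := ⟨((x : cyc m) : ℂ), by
    have h : IsIntegral ℤ (x : cyc m) := x.2
    exact h.map (algebraMap (cyc m) ℂ).toIntAlgHom⟩
  map_one' := rfl
  map_mul' _ _ := rfl
  map_zero' := rfl
  map_add' _ _ := rfl

theorem mem_of_mem {m : ℕ} (hm : 3 ≤ m) (hmp : m.Coprime (ringChar F)) {η : MulChar F ℂ}
    (hη : orderOf η = m) {t : ℕ} {A A' : ValuationSubring ℂ} (h : IsPlace m η A t)
    (h' : IsPlace m η A' t) {x : ℂ} (hx : x ∈ cyc m) (hxA : x ∈ A) : x ∈ A' := by
  have : FiniteDimensional ℚ (cyc m) := finiteDim (by omega)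
  have : NumberField (cyc m) := ⟨⟩
  let φ : NumberField.RingOfIntegers (cyc m) →+* IsLocalRing.ResidueField A :=
    (resMap A).comp (toInt m)
  have hφ : ∀ y : NumberField.RingOfIntegers (cyc m), φ y = 0 ↔
      A.valuation ((y : cyc m) : ℂ) < 1 := by
    intro y
    have h1 : φ y = res (resMap A) ((toInt m y : integralClosure ℤ ℂ) : ℂ) :=
      (res_coe (resMap A) (toInt m y)).symm
    rw [h1]
    exact res_zero_iff A (toInt m y).2
  have hp : (ringChar F : NumberField.RingOfIntegers (cyc m)) ∈ RingHom.ker φ := by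
    rw [RingHom.mem_ker, hφ]
    simpa using h.1
  have hp0 : (ringChar F : NumberField.RingOfIntegers (cyc m)) ≠ 0 := by
    have hpp : (ringChar F).Prime := CharP.char_is_prime F _
    exact_mod_cast hpp.ne_zero
  let v : IsDedekindDomain.HeightOneSpectrum (NumberField.RingOfIntegers (cyc m)) :=
    ⟨RingHom.ker φ, RingHom.ker_isPrime φ, fun hbot => hp0 (by
      rw [hbot] at hp
      exact (Submodule.mem_bot _).1 hp)⟩
  have hunit : ∀ y : NumberField.RingOfIntegers (cyc m),
      (A.valuation ((y : cyc m) : ℂ) < 1 ↔ A'.valuation ((y : cyc m) : ℂ) < 1) := by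
    intro y
    obtain ⟨P, hP⟩ := center hm hmp hη (t := t) (toInt m y).2 (y : cyc m).2
    exact (hP A h).trans (hP A' h').symm
  have hle : ∀ (B : ValuationSubring ℂ) (y : NumberField.RingOfIntegers (cyc m)),
      B.valuation ((y : cyc m) : ℂ) ≤ 1 := fun B y => val_le_one B (toInt m y).2
  obtain ⟨n, d, hnd⟩ := v.exists_primeCompl_mul_eq_or_mul_eq (⟨x, hx⟩ : cyc m)
  have hdA : A.valuation (((d : NumberField.RingOfIntegers (cyc m)) : cyc m) : ℂ) = 1 := by
    have h1 : ¬ A.valuation (((d : NumberField.RingOfIntegers (cyc m)) : cyc m) : ℂ) < 1 := by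
      rw [← hφ]
      exact d.2
    exact le_antisymm (hle A _) (not_lt.1 h1)
  have hdA' : A'.valuation (((d : NumberField.RingOfIntegers (cyc m)) : cyc m) : ℂ) = 1 := by
    apply le_antisymm (hle A' _)
    rw [← not_lt, ← hunit, hdA]
    exact lt_irrefl _
  rcases hnd with h1 | h1
  · have h2 : x * (((d : NumberField.RingOfIntegers (cyc m)) : cyc m) : ℂ) =
        ((n : cyc m) : ℂ) := congrArg (fun z : cyc m => (z : ℂ)) h1
    have h3 : A'.valuation x * A'.valuation
        (((d : NumberField.RingOfIntegers (cyc m)) : cyc m) : ℂ) =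
        A'.valuation ((n : cyc m) : ℂ) := by rw [← map_mul, h2]
    rw [hdA', mul_one] at h3
    rw [← A'.valuation_le_one_iff, h3]
    exact hle A' n
  · have h2 : x * ((n : cyc m) : ℂ) =
        (((d : NumberField.RingOfIntegers (cyc m)) : cyc m) : ℂ) :=
      congrArg (fun z : cyc m => (z : ℂ)) h1
    have hn : A.valuation ((n : cyc m) : ℂ) = 1 := by
      apply le_antisymm (hle A n)
      have h4 : A.valuation x * A.valuation ((n : cyc m) : ℂ) = 1 := by
        rw [← map_mul, h2, hdA]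
      rw [← h4]
      exact mul_le_of_le_one_left' ((A.valuation_le_one_iff x).2 hxA)
    have hn' : A'.valuation ((n : cyc m) : ℂ) = 1 := by
      apply le_antisymm (hle A' _)
      rw [← not_lt, ← hunit, hn]
      exact lt_irrefl _
    have h3 : A'.valuation x * A'.valuation ((n : cyc m) : ℂ) = A'.valuation
        (((d : NumberField.RingOfIntegers (cyc m)) : cyc m) : ℂ) := by rw [← map_mul, h2]
    rw [hdA', hn', mul_one] at h3
    rw [← A'.valuation_le_one_iff, h3]

theorem same_value' {m : ℕ} (hm : 3 ≤ m) (hmp : m.Coprime (ringChar F)) {η : MulChar F ℂ}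
    (hη : orderOf η = m) {t : ℕ} {A A' : ValuationSubring ℂ} (h : IsPlace m η A t)
    (h' : IsPlace m η A' t) {α β : ℂ} (hα : α ∈ cyc m) (hβ : β ∈ cyc m)
    (hk : A.valuation α = A.valuation β) : A'.valuation α = A'.valuation β := by
  by_cases hβ0 : β = 0
  · rw [hβ0, map_zero, map_eq_zero] at hk
    rw [hk, hβ0]
  have hα0 : α ≠ 0 := by
    rintro rfl
    rw [map_zero] at hk
    exact hβ0 ((map_eq_zero _).1 hk.symm)
  have h1 : α / β ∈ A := by
    rw [← A.valuation_le_one_iff, map_div₀, hk, div_self ((Valuation.ne_zero_iff _).2 hβ0)]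
  have h2 : β / α ∈ A := by
    rw [← A.valuation_le_one_iff, map_div₀, hk, div_self ((Valuation.ne_zero_iff _).2 hβ0)]
  have h3 := mem_of_mem hm hmp hη h h' (div_mem hα hβ) h1
  have h4 := mem_of_mem hm hmp hη h h' (div_mem hβ hα) h2
  rw [← A'.valuation_le_one_iff, map_div₀] at h3 h4
  apply le_antisymm
  · exact (div_le_one₀ (zero_lt_iff.2 ((Valuation.ne_zero_iff _).2 hβ0))).1 h3
  · exact (div_le_one₀ (zero_lt_iff.2 ((Valuation.ne_zero_iff _).2 hα0))).1 h4

theorem same_value {m : ℕ} (hm : 3 ≤ m) (hF : m ∣ Fintype.card F - 1) {η : MulChar F ℂ}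
    (hη : orderOf η = m) {t : ℕ} {A A' : ValuationSubring ℂ} (h : IsPlace m η A t)
    (h' : IsPlace m η A' t) {α β : ℂ} (hα : α ∈ cyc m) (hβ : β ∈ cyc m)
    (hk : A.valuation α = A.valuation β) : A'.valuation α = A'.valuation β :=
  same_value' hm (char_coprime hF).symm hη h h' hα hβ hk

theorem conj_int {y : ℂ} (hy : IsIntegral ℤ y) : IsIntegral ℤ ((starRingEnd ℂ) y) :=
  hy.map (starRingEnd ℂ).toIntAlgHom

/-- The valuation subring conjugate to `A`. -/
noncomputable def conjSub (A : ValuationSubring ℂ) : ValuationSubring ℂ :=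
  A.comap (starRingEnd ℂ)

theorem mem_conjSub (A : ValuationSubring ℂ) (x : ℂ) :
    x ∈ conjSub A ↔ (starRingEnd ℂ) x ∈ A := Iff.rfl

theorem conj_le_iff (A : ValuationSubring ℂ) (x y : ℂ) :
    (conjSub A).valuation x ≤ (conjSub A).valuation y ↔
      A.valuation ((starRingEnd ℂ) x) ≤ A.valuation ((starRingEnd ℂ) y) := by
  by_cases hy : y = 0
  · rw [hy, map_zero, map_zero, map_zero, le_zero_iff, le_zero_iff, map_eq_zero, map_eq_zero,
      map_eq_zero]
  · have hy' : (starRingEnd ℂ) y ≠ 0 := by rwa [Ne, map_eq_zero]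
    have e1 : (conjSub A).valuation x ≤ (conjSub A).valuation y ↔ x / y ∈ conjSub A := by
      rw [← ValuationSubring.valuation_le_one_iff, map_div₀,
        div_le_one₀ (zero_lt_iff.2 (((conjSub A).valuation.ne_zero_iff).2 hy))]
    have e2 : A.valuation ((starRingEnd ℂ) x) ≤ A.valuation ((starRingEnd ℂ) y) ↔
        (starRingEnd ℂ) x / (starRingEnd ℂ) y ∈ A := by
      rw [← ValuationSubring.valuation_le_one_iff, map_div₀,
        div_le_one₀ (zero_lt_iff.2 ((A.valuation.ne_zero_iff).2 hy'))]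
    rw [e1, e2, mem_conjSub, map_div₀]

theorem conj_eq_iff (A : ValuationSubring ℂ) (x y : ℂ) :
    (conjSub A).valuation x = (conjSub A).valuation y ↔
      A.valuation ((starRingEnd ℂ) x) = A.valuation ((starRingEnd ℂ) y) := by
  rw [le_antisymm_iff, le_antisymm_iff, conj_le_iff, conj_le_iff]

/-- Complex conjugation, from `A` to the conjugate subring. -/
noncomputable def conjHom (A : ValuationSubring ℂ) : A →+* conjSub A :=
  ((starRingEnd ℂ).comp (algebraMap A ℂ)).codRestrict (conjSub A).toSubring (fun x => by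
    have h : (starRingEnd ℂ) ((starRingEnd ℂ) (x : ℂ)) ∈ A := by
      rw [Complex.conj_conj]
      exact x.2
    exact h)

theorem conjHom_coe (A : ValuationSubring ℂ) (x : A) :
    ((conjHom A x : conjSub A) : ℂ) = (starRingEnd ℂ) (x : ℂ) := rfl

instance (A : ValuationSubring ℂ) : IsLocalHom (conjHom A) := by
  constructor
  intro a ha
  rw [ValuationSubring.valuation_eq_one_iff] at ha ⊢
  rw [conjHom_coe] at ha
  have h := (conj_eq_iff A ((starRingEnd ℂ) (a : ℂ)) 1).1 (by rw [ha, map_one])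
  rw [Complex.conj_conj, map_one, map_one] at h
  exact h

theorem res_conj (A : ValuationSubring ℂ) {y : ℂ} (hy : IsIntegral ℤ y) :
    res (resMap (conjSub A)) ((starRingEnd ℂ) y) =
      IsLocalRing.ResidueField.map (conjHom A) (res (resMap A) y) := by
  rw [resMap_eq _ (conj_int hy), resMap_eq _ hy, IsLocalRing.ResidueField.map_residue]
  rfl

theorem place_conj {m : ℕ} (hm : 3 ≤ m) (hF : m ∣ Fintype.card F - 1) {η : MulChar F ℂ}
    {A : ValuationSubring ℂ} {t : ℕ} (h : IsPlace m η A t) :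
    ∃ A' : ValuationSubring ℂ, IsPlace m η A' ((m - 1) * t) ∧ ∀ x y : ℂ,
      A'.valuation x = A'.valuation y ↔
        A.valuation ((starRingEnd ℂ) x) = A.valuation ((starRingEnd ℂ) y) := by
  obtain ⟨h1, ι, τ, hτ, hη⟩ := h
  refine ⟨conjSub A, ⟨?_, (IsLocalRing.ResidueField.map (conjHom A)).comp ι, τ⁻¹, ?_, ?_⟩,
    conj_eq_iff A⟩
  · rw [← not_le, ← map_one (conjSub A).valuation, conj_le_iff, map_one, map_one, map_natCast,
      not_le]
    exact h1
  · intro x
    have h2 : τ⁻¹ (x : F) = (starRingEnd ℂ) (τ x) := by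
      rw [← MulChar.star_apply']
      rfl
    rw [h2, res_conj A (Pool.Agent.Helper40.QC.int_value τ x), hτ]
    rfl
  · have h2 : m * ((Fintype.card F - 1) / m) = Fintype.card F - 1 := Nat.mul_div_cancel' hF
    have h3 : τ ^ ((m - 1) * t * ((Fintype.card F - 1) / m)) * τ ^ (t * ((Fintype.card F - 1) / m))
        = 1 := by
      rw [← pow_add]
      have h4 : (m - 1) * t * ((Fintype.card F - 1) / m) + t * ((Fintype.card F - 1) / m) =
          (Fintype.card F - 1) * t := by
        conv_rhs => rw [← h2]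
        obtain ⟨c, rfl⟩ : ∃ c, m = c + 1 := ⟨m - 1, by omega⟩
        rw [Nat.add_sub_cancel]
        ring
      rw [h4, pow_mul, char_pow, one_pow]
    rw [hη, inv_pow]
    exact eq_inv_of_mul_eq_one_right h3

end Pool.Agent.Helper70.CC
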